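import Mathlib

/-!
# MP_70678e_nt: assertions (b) and (c) of De Koninck are false

The least prime with digit sum `86` is `6999999989`; its last digits are `89` and `989`.  So the
assertion (b) `ρ(k) ≡ 99 (mod 100)` for `k > 38` and the assertion (c) `ρ(k) ≡ 999 (mod 1000)` for
`k > 59` both fail at `k = 86`.
-/

set_option autoImplicit false

namespace Pool.Agent.Results.MP_70678e_nt.LeastPrimeEndsIn89

/-- the sum of the decimal digits of `n` -/
def s (n : ℕ) : ℕ := (Nat.digits 10 n).sum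

/-- `ρ(k)` is defined and equal to `p`: `p` is the least prime with digit sum `k` -/
def IsRho (k p : ℕ) : Prop := IsLeast {q : ℕ | q.Prime ∧ s q = k} p

/-- assertion (b) -/
def AssertionB : Prop := ∀ k p : ℕ, 38 < k → IsRho k p → p % 100 = 99

/-- assertion (c) -/
def AssertionC : Prop := ∀ k p : ℕ, 59 < k → IsRho k p → p % 1000 = 999

lemma s_step (n : ℕ) : s n = n % 10 + s (n / 10) := by
  unfold s
  rcases Nat.eq_zero_or_pos n with rfl | h
  · simp
  · rw [Nat.digits_def' (by norm_num) h, List.sum_cons]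

lemma s_zero : s 0 = 0 := by simp [s]

lemma cases_of {q : ℕ} (h : s q = 86) (hlt : q < 6999999989) :
    q = 5999999999 ∨ q = 6999999998 ∨ q = 6999999899 ∨ q = 6999998999 ∨ q = 6999989999 ∨
      q = 6999899999 ∨ q = 6998999999 ∨ q = 6989999999 ∨ q = 6899999999 := by
  obtain ⟨q1, d0, h0, hq⟩ : ∃ a b, b < 10 ∧ q = 10 * a + b := ⟨q / 10, q % 10, by omega, by omega⟩
  obtain ⟨q2, d1, h1, hq1⟩ : ∃ a b, b < 10 ∧ q1 = 10 * a + b :=
    ⟨q1 / 10, q1 % 10, by omega, by omega⟩
  obtain ⟨q3, d2, h2, hq2⟩ : ∃ a b, b < 10 ∧ q2 = 10 * a + b :=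
    ⟨q2 / 10, q2 % 10, by omega, by omega⟩
  obtain ⟨q4, d3, h3, hq3⟩ : ∃ a b, b < 10 ∧ q3 = 10 * a + b :=
    ⟨q3 / 10, q3 % 10, by omega, by omega⟩
  obtain ⟨q5, d4, h4, hq4⟩ : ∃ a b, b < 10 ∧ q4 = 10 * a + b :=
    ⟨q4 / 10, q4 % 10, by omega, by omega⟩
  obtain ⟨q6, d5, h5, hq5⟩ : ∃ a b, b < 10 ∧ q5 = 10 * a + b :=
    ⟨q5 / 10, q5 % 10, by omega, by omega⟩
  obtain ⟨q7, d6, h6, hq6⟩ : ∃ a b, b < 10 ∧ q6 = 10 * a + b :=
    ⟨q6 / 10, q6 % 10, by omega, by omega⟩
  obtain ⟨q8, d7, h7, hq7⟩ : ∃ a b, b < 10 ∧ q7 = 10 * a + b :=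
    ⟨q7 / 10, q7 % 10, by omega, by omega⟩
  obtain ⟨q9, d8, h8, hq8⟩ : ∃ a b, b < 10 ∧ q8 = 10 * a + b :=
    ⟨q8 / 10, q8 % 10, by omega, by omega⟩
  have h9 : q9 < 7 := by omega
  have key : ∀ a b : ℕ, b < 10 → s (10 * a + b) = b + s a := by
    intro a b hb
    rw [s_step, show (10 * a + b) % 10 = b by omega, show (10 * a + b) / 10 = a by omega]
  have hs9 : s q9 = q9 := by
    rw [s_step, show q9 / 10 = 0 by omega, s_zero, show q9 % 10 = q9 by omega, add_zero]
  have hs : d0 + (d1 + (d2 + (d3 + (d4 + (d5 + (d6 + (d7 + (d8 + q9)))))))) = 86 := by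
    rw [hq, key _ _ h0, hq1, key _ _ h1, hq2, key _ _ h2, hq3, key _ _ h3, hq4, key _ _ h4,
      hq5, key _ _ h5, hq6, key _ _ h6, hq7, key _ _ h7, hq8, key _ _ h8, hs9] at h
    exact h
  have hq' : q = d0 + 10 * d1 + 100 * d2 + 1000 * d3 + 10000 * d4 + 100000 * d5 +
      1000000 * d6 + 10000000 * d7 + 100000000 * d8 + 1000000000 * q9 := by
    subst hq8 hq7 hq6 hq5 hq4 hq3 hq2 hq1
    rw [hq]; ring
  clear key hs9 h hq hq1 hq2 hq3 hq4 hq5 hq6 hq7 hq8
  -- either the leading digit is five and all others are nine, or it is six and one other is eight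
  rcases Nat.lt_or_ge q9 6 with h10 | h10
  · left; omega
  · right
    have h11 : q9 = 6 := by omega
    subst h11
    have hs' : d0 + d1 + d2 + d3 + d4 + d5 + d6 + d7 + d8 = 80 := by omega
    clear hs
    rcases Nat.lt_or_ge d0 9 with g | g
    · left; omega
    rcases Nat.lt_or_ge d1 9 with g | g
    · omega
    rcases Nat.lt_or_ge d2 9 with g | g
    · right; left; omega
    rcases Nat.lt_or_ge d3 9 with g | g
    · right; right; left; omega
    rcases Nat.lt_or_ge d4 9 with g | g
    · right; right; right; left; omega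
    rcases Nat.lt_or_ge d5 9 with g | g
    · right; right; right; right; left; omega
    rcases Nat.lt_or_ge d6 9 with g | g
    · right; right; right; right; right; left; omega
    rcases Nat.lt_or_ge d7 9 with g | g
    · right; right; right; right; right; right; left; omega
    · right; right; right; right; right; right; right; omega

lemma prime_6999999989 : Nat.Prime 6999999989 := by
  refine lucas_primality _ (2 : ZMod 6999999989) (by reduce_mod_char) fun q hq hd => ?_
  have hf : 6999999989 - 1 = 2 * 2 * 19 * 373 * 246931 := by norm_num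
  rw [hf, hq.dvd_mul, hq.dvd_mul, hq.dvd_mul, hq.dvd_mul] at hd
  have p1 : Nat.Prime 19 := by norm_num
  have p2 : Nat.Prime 373 := by norm_num
  have p3 : Nat.Prime 246931 := by norm_num
  rcases hd with (((hd | hd) | hd) | hd) | hd
  · obtain rfl := (Nat.prime_dvd_prime_iff_eq hq Nat.prime_two).1 hd
    reduce_mod_char
    decide +kernel
  · obtain rfl := (Nat.prime_dvd_prime_iff_eq hq Nat.prime_two).1 hd
    reduce_mod_char
    decide +kernel
  · obtain rfl := (Nat.prime_dvd_prime_iff_eq hq p1).1 hd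
    reduce_mod_char
    decide +kernel
  · obtain rfl := (Nat.prime_dvd_prime_iff_eq hq p2).1 hd
    reduce_mod_char
    decide +kernel
  · obtain rfl := (Nat.prime_dvd_prime_iff_eq hq p3).1 hd
    reduce_mod_char
    decide +kernel

/-- `ρ(86) = 6999999989` -/
theorem rho_86 : IsRho 86 6999999989 := by
  constructor
  · refine ⟨prime_6999999989, ?_⟩
    norm_num [s]
  · rintro q ⟨hp, hs⟩
    by_contra hlt
    push Not at hlt
    rcases cases_of hs hlt with rfl | rfl | rfl | rfl | rfl | rfl | rfl | rfl | rfl <;>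
      norm_num at hp

/-- The least prime with digit sum `86` is `6999999989`, and the assertions (b) and (c) are
false. -/
theorem result : IsRho 86 6999999989 ∧ ¬ AssertionB ∧ ¬ AssertionC := by
  refine ⟨rho_86, fun h => ?_, fun h => ?_⟩
  · have := h 86 _ (by norm_num) rho_86
    norm_num at this
  · have := h 86 _ (by norm_num) rho_86
    norm_num at this

end Pool.Agent.Results.MP_70678e_nt.LeastPrimeEndsIn89
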